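import Mathlib
import Pool.Agent.N465.CS.Main

set_option autoImplicit false

open Finset

namespace Pool.Agent.Results.MP_3bb84f_co.QuadraticBound

/-- The easy case: some edge has at most `k` vertices. -/
lemma small_edge {n k N : ℕ} (hN : k + 1 ≤ N) (H : Finset (Finset (Fin n)))
    (hH : ∀ e ∈ H, ∀ f ∈ H, e ≠ f → k ≤ (e ∩ f).card)
    {e : Finset (Fin n)} (he : e ∈ H) (hek : e.card ≤ k) :
    ∃ col : Fin n → Fin N, ∀ f ∈ H, min f.card (k + 1) ≤ (f.image col).card := by
  classical
  let φ := e.equivFin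
  set col : Fin n → Fin N := fun v =>
    if h : v ∈ e then ⟨(φ ⟨v, h⟩ : ℕ), by have := (φ ⟨v, h⟩).2; omega⟩ else ⟨k, by omega⟩ with hcol
  have hcol1 : ∀ v (h : v ∈ e), (col v : ℕ) = (φ ⟨v, h⟩ : ℕ) := by
    intro v h
    simp only [hcol, dif_pos h]
  have hcol2 : ∀ v, v ∉ e → (col v : ℕ) = k := by
    intro v h
    simp only [hcol, dif_neg h]
  have hinj : Set.InjOn col e := by
    intro v hv w hw hvw
    have hv' : v ∈ e := hv
    have hw' : w ∈ e := hw
    have h1 : (φ ⟨v, hv'⟩ : ℕ) = (φ ⟨w, hw'⟩ : ℕ) := by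
      rw [← hcol1 v hv', ← hcol1 w hw', hvw]
    have h2 := φ.injective (Fin.ext h1)
    exact congrArg Subtype.val h2
  refine ⟨col, fun f hf => ?_⟩
  by_cases hfe : f = e
  · subst hfe
    rw [Finset.card_image_of_injOn hinj]
    exact min_le_left _ _
  · have h1 := hH e he f hf (Ne.symm hfe)
    have h2 : e ∩ f ⊆ e := Finset.inter_subset_left
    have h3 : e ∩ f = e := Finset.eq_of_subset_of_card_le h2 (by omega)
    have hsub : e ⊆ f := by
      rw [← h3]; exact Finset.inter_subset_right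
    have hcard : e.card = k := by
      have := Finset.card_le_card h2
      omega
    obtain ⟨w, hwf, hwe⟩ : ∃ w ∈ f, w ∉ e := by
      by_contra hcon
      push Not at hcon
      exact hfe (Finset.Subset.antisymm hcon hsub)
    have h4 : (insert w e).image col ⊆ f.image col := by
      refine Finset.image_subset_image ?_
      intro x hx
      rcases Finset.mem_insert.1 hx with h | h
      · rw [h]; exact hwf
      · exact hsub h
    have h5 : Set.InjOn col (insert w e : Finset (Fin n)) := by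
      rw [Finset.coe_insert, Set.injOn_insert (by simpa using hwe)]
      refine ⟨hinj, ?_⟩
      rintro ⟨v, hv, hvw⟩
      have hv' : v ∈ e := hv
      have h6 := hcol1 v hv'
      have h7 := hcol2 w hwe
      have h8 := (φ ⟨v, hv'⟩).2
      rw [hvw] at h6
      omega
    have h9 := Finset.card_le_card h4
    rw [Finset.card_image_of_injOn h5, Finset.card_insert_of_notMem hwe, hcard] at h9
    exact le_trans (min_le_right _ _) h9

/-- For every `c ≥ 2`, every finite `(c-1)`-intersecting hypergraph has a `c`-strong colouring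
with `c^2 - c + 1` colours. -/
theorem result : ∀ c : ℕ, 2 ≤ c → ∀ n : ℕ, ∀ H : Finset (Finset (Fin n)),
    (∀ e ∈ H, ∀ f ∈ H, e ≠ f → c - 1 ≤ (e ∩ f).card) →
    ∃ col : Fin n → Fin (c ^ 2 - c + 1), ∀ e ∈ H, min e.card c ≤ (e.image col).card := by
  classical
  intro c hc n H hH
  obtain ⟨k, rfl⟩ : ∃ k, c = k + 1 := ⟨c - 1, by omega⟩
  have hk : 1 ≤ k := by omega
  have hH' : ∀ e ∈ H, ∀ f ∈ H, e ≠ f → k ≤ (e ∩ f).card := by
    intro e he f hf hef
    have := hH e he f hf hef
    omega
  have hNeq : (k + 1) ^ 2 - (k + 1) + 1 = k ^ 2 + k + 1 := by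
    have : (k + 1) ^ 2 = k ^ 2 + k + (k + 1) := by ring
    omega
  rw [hNeq]
  by_cases hn : n ≤ k ^ 2 + k + 1
  · refine ⟨Fin.castLE hn, fun e _ => ?_⟩
    rw [Finset.card_image_of_injective _ (Fin.castLE_injective hn)]
    exact min_le_left _ _
  by_cases hs : ∃ e ∈ H, e.card ≤ k
  · obtain ⟨e, he, hek⟩ := hs
    exact small_edge (by nlinarith) H hH' he hek
  · push Not at hs
    obtain ⟨L, hL⟩ : ∃ L, n = L + (k ^ 2 + k + 1) := ⟨n - (k ^ 2 + k + 1), by omega⟩
    obtain ⟨col, hcol⟩ := Pool.Agent.N465.CS.main_case hk hL H hH' (fun e he => hs e he)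
    exact ⟨col, fun e he => le_trans (min_le_right _ _) (hcol e he)⟩

end Pool.Agent.Results.MP_3bb84f_co.QuadraticBound
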